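import Pool.Agent.Y80.Tor.Main

set_option autoImplicit false

namespace Pool.Agent.Results.MP_2692c1_al.ThreeTorsion

open Pool.Agent.Y80.Tor

/-- The free alternative ring on a set `X` with at least six elements (in particular on a
countably infinite set) has an element of additive order three, so it is not a free abelian
group. -/
theorem result (X : Type*) (ι : Fin 6 ↪ X) :
    (∃ f : FreeAltRing X, addOrderOf f = 3) ∧ ¬ Module.Free ℤ (FreeAltRing X) :=
  ⟨exists_order_three ι, not_free ι⟩

end Pool.Agent.Results.MP_2692c1_al.ThreeTorsion
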